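import Pool.Agent.Lib_helper18.TFF.DefsF

/-!
# Full cancellation along thin families `n² + b²`, `b ≤ x^β`, `β > 1/3`: definitions
(MP_892e4c_nt)
-/

set_option autoImplicit false

namespace Pool.Agent.TR

open Pool.Agent.T2 Pool.Agent.TF

/-- all prime factors of `n ≠ 0` are larger than `R` -/
def Rough (R : ℝ) (n : ℕ) : Prop := n ≠ 0 ∧ ∀ p : ℕ, p.Prime → p ∣ n → R < (p : ℝ)

/-- functions of absolute value at most one which change the sign under multiplication by the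
primes `≤ R` -/
structure Flip (R : ℝ) (F : ℕ → ℝ) : Prop where
  bd : ∀ n, |F n| ≤ 1
  flip : ∀ p n : ℕ, p.Prime → (p : ℝ) ≤ R → n ≠ 0 → F (p * n) = -F n

open Classical in
/-- the rough primitive elements with norm in `(Y, 2Y]` in the open octant `0 < im < re` -/
noncomputable def Ru (R Y : ℝ) : Finset G :=
  (PB (2 * Y)).filter (fun u => 0 < u.im ∧ u.im < u.re ∧ Y < (nn u : ℝ) ∧ Rough R (nn u))

/-- the bilinear sum with arbitrary coefficients; `σ = 1` or `σ = -1` -/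
noncomputable def SB (f : ℝ → ℝ) (α γ : G → ℝ) (σ : ℤ) (R x Y : ℝ) (c : ℤ → ℝ) : ℝ :=
  ∑ u ∈ Ru R Y, α u * ∑ z ∈ Bl (2 * x ^ 2 / Y),
    γ z * (c (σ * (u * z).im) * f (((u * z).re : ℝ) / x))

open Classical in
/-- the function `F` of the norm, on primitive elements -/
noncomputable def gF (F : ℕ → ℝ) (z : G) : ℝ := if Prm z then F (nn z) else 0

open Classical in
/-- the number of the pairs of rough elements with norms in `(Y, 2Y]` and a nonzero determinant,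
divisible by `q`, of absolute value at most `D` -/
noncomputable def NpR (R Y D : ℝ) (q : ℕ) : ℝ :=
  (((Ru R Y ×ˢ Ru R Y).filter (fun t =>
    det t.1 t.2 ≠ 0 ∧ |(det t.1 t.2 : ℝ)| ≤ D ∧ (q : ℤ) ∣ det t.1 t.2)).card : ℝ)

/-- the sum over `z` which belongs to a pair (as `TF.PP`, with `|γ| ≤ 1` dropped) -/
noncomputable def TTR (f : ℝ → ℝ) (α : G → ℝ) (σ : ℤ) (R x Y : ℝ) (c : ℤ → ℝ) : ℝ :=
  ∑ z ∈ Bl (2 * x ^ 2 / Y), (∑ u ∈ Ru R Y,
    α u * (c (σ * (u * z).im) * f (((u * z).re : ℝ) / x))) ^ 2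

/-- the twisted sum of `F` over primitive elements -/
noncomputable def SmF (F : ℕ → ℝ) {m : G} (χ : MChar m) (k : ℤ) (x : ℝ) : ℂ :=
  ∑ z ∈ PB x, (F (nn z) : ℂ) * xi χ k z

open Classical in
/-- the sum over a residue class -/
noncomputable def AclF (F : ℕ → ℝ) (m : ℕ) (c : G) (k : ℤ) (x : ℝ) : ℂ :=
  ∑ z ∈ (PB x).filter (fun z => (m : G) ∣ z - c), (F (nn z) : ℂ) * ang k z

/-- the variance of a set -/
noncomputable def SVF (F : ℕ → ℝ) (S : Finset G) (k : ℝ) : ℝ :=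
  ∑ w ∈ S, ∑ w' ∈ S, F (nn w) * F (nn w') * hat (ag w w' / k)

/-- the bilinear sum with a hat -/
noncomputable def TSR (α : G → ℝ) (F : ℕ → ℝ) (Q S : Finset G) (k : ℝ) (s : ℤ) : ℝ :=
  ∑ u ∈ Q, α u * ∑ w ∈ S, F (nn w) * hat ((ag (star u) w - s * k) / k)

/-- the smooth version of the sum over a cell -/
noncomputable def SCR (ψ f : ℝ → ℝ) (α : G → ℝ) (F : ℕ → ℝ) (σ : ℤ) (R x B Y : ℝ) (M : ℕ) (r : ℤ)
    (Z : ℝ) : ℝ :=
  ∑ u ∈ Ru R Y, α u * ∑ w ∈ PB Z,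
    F (nn w) * ((if (M : ℤ) ∣ σ * (u * w).im - r then 1 else 0) *
      (ψ (((σ * (u * w).im : ℤ) : ℝ) / B) * f (((u * w).re : ℝ) / x)))

open Classical in
/-- the rough elements of a slice -/
noncomputable def SubR (R : ℝ) (M : ℕ) (c : G) (N a : ℕ) (Y : ℝ) : Finset G :=
  (Ru R Y).filter (fun u => (M : G) ∣ u - c ∧ ⌈(N : ℝ) * nn u / Y⌉₊ = a)

end Pool.Agent.TR
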